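import Mathlib
import Pool.Agent.Work.MP_500150_lc.H8.AreaComp

set_option autoImplicit false

/-!
# The Mandelbrot set is computed from its area

The distance function of the Mandelbrot set with error `2 ^ (-n)` is computed from `2 n + 8` binary
digits of the area of the Mandelbrot set. If the area is a computable real number, then the
Mandelbrot set is computable.
-/

namespace Pool.Agent.Results.MP_500150_lc.AreaBits

open MeasureTheory

/-- The point `z_n` of the critical orbit of the parameter `c`. -/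
noncomputable def z (n : ℕ) (c : ℂ) : ℂ := (fun z : ℂ => z ^ 2 + c)^[n] 0

/-- The Mandelbrot set. -/
def M : Set ℂ := {c : ℂ | ∀ i : ℕ, ‖z i c‖ ≤ 2}

/-- The distance to the Mandelbrot set. -/
noncomputable def d (c : ℂ) : ℝ := Metric.infDist c M

/-- The area of the Mandelbrot set. -/
noncomputable def area : ℝ := (volume M).toReal

/-- The point `((a - b) + (p - q) i) / 2 ^ n`. -/
noncomputable def pt (a b p q n : ℕ) : ℂ :=
  Complex.mk (((a : ℝ) - (b : ℝ)) / 2 ^ n) (((p : ℝ) - (q : ℝ)) / 2 ^ n)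

theorem result :
    (∀ (N : ℕ) (r : ℝ), 1 ≤ N → 0 < r →
      volume ({c : ℂ | ‖z N c‖ ≤ 3} \ M) < ENNReal.ofReal (Real.pi * (r / 4) ^ 2) →
        ∀ c : ℂ, r < d c → ∀ n : ℕ, N + 3 ≤ n → 3 < ‖z n c‖) ∧
    (∃ F : ℕ × ℕ × ℕ × ℕ × ℕ × ℕ →. ℕ, Partrec F ∧ ∀ a b p q n s : ℕ,
      |(s : ℝ) / 4 ^ (n + 4) - area| ≤ 1 / 4 ^ (n + 4) →
        ∃ t ∈ F (a, b, p, q, n, s), |(t : ℝ) / 2 ^ n - d (pt a b p q n)| ≤ 1 / 2 ^ n) ∧
    ((∃ g : ℕ → ℕ, Computable g ∧ ∀ n, |(g n : ℝ) / 2 ^ n - area| ≤ 1 / 2 ^ n) →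
      ∃ f : ℕ × ℕ × ℕ × ℕ × ℕ → ℕ × ℕ, Computable f ∧ ∀ a b p q n : ℕ,
        |(((f (a, b, p, q, n)).1 : ℝ) - ((f (a, b, p, q, n)).2 : ℝ)) / 2 ^ n -
          d (pt a b p q n)| ≤ 1 / 2 ^ n) := by
  refine ⟨?_, ?_, ?_⟩
  · intro N r hN hr h c hc n hn
    exact Pool.MP_500150_lc.H8.area_time hN hr h hc hn
  · exact Pool.MP_500150_lc.H8.area_alg
  · rintro ⟨g, hg, hga⟩
    exact Pool.MP_500150_lc.H8.comp_of_area hg hga

end Pool.Agent.Results.MP_500150_lc.AreaBits
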