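import Mathlib
import Pool.Agent.Work.MP_500150_lc.LC.Asm

set_option autoImplicit false

/-!
# The computability of the Mandelbrot set is a local question

Let `U` be any open set which meets the boundary of the Mandelbrot set `M`. Points which are not too close
to `M` and escape slowly can be transferred into `U`, with a computable loss; so `M` is computable
if and only if its distance function is computable on `U`, and if and only if it satisfies one of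
three weaker demands on `U`.
-/

namespace Pool.Agent.Results.MP_500150_lc.Locality

/-- The Mandelbrot set. -/
def M : Set ℂ := {c : ℂ | ∀ i : ℕ, ‖(fun z : ℂ => z ^ 2 + c)^[i] 0‖ ≤ 2}

/-- The critical orbit `0, c, c ^ 2 + c, …` of the parameter `c`. -/
noncomputable def orbit (c : ℂ) (n : ℕ) : ℂ := (fun z : ℂ => z ^ 2 + c)^[n] 0

/-- The distance to the Mandelbrot set. -/
noncomputable def d (c : ℂ) : ℝ := Metric.infDist c M

/-- The dyadic point `(a - b) / 2 ^ n + i (p - q) / 2 ^ n`. -/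
noncomputable def dyadic (a b p q n : ℕ) : ℂ :=
  Complex.mk (((a : ℝ) - (b : ℝ)) / 2 ^ n) (((p : ℝ) - (q : ℝ)) / 2 ^ n)

/-- The distance function of the Mandelbrot set is computable. -/
def ComputableM : Prop :=
  ∃ f : ℕ × ℕ × ℕ × ℕ × ℕ → ℕ × ℕ, Computable f ∧ ∀ a b p q n : ℕ,
    |(((f (a, b, p, q, n)).1 : ℝ) - ((f (a, b, p, q, n)).2 : ℝ)) / 2 ^ n - d (dyadic a b p q n)|
      ≤ 1 / 2 ^ n

/-- The distance function of the Mandelbrot set is computable on `U`. -/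
def ComputableOn (U : Set ℂ) : Prop :=
  ∃ f : ℕ × ℕ × ℕ × ℕ × ℕ → ℕ × ℕ, Computable f ∧ ∀ a b p q n : ℕ, dyadic a b p q n ∈ U →
    |(((f (a, b, p, q, n)).1 : ℝ) - ((f (a, b, p, q, n)).2 : ℝ)) / 2 ^ n - d (dyadic a b p q n)|
      ≤ 1 / 2 ^ n

/-- The closed dyadic square `[x / 2 ^ n - 4, (x + 1) / 2 ^ n - 4] ×
[y / 2 ^ n - 4, (y + 1) / 2 ^ n - 4]`. -/
def Square (n x y : ℕ) : Set ℂ :=
  {c : ℂ | (x : ℝ) / 2 ^ n - 4 ≤ c.re ∧ c.re ≤ ((x : ℝ) + 1) / 2 ^ n - 4 ∧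
    (y : ℝ) / 2 ^ n - 4 ≤ c.im ∧ c.im ≤ ((y : ℝ) + 1) / 2 ^ n - 4}

/-- The pixel `(x, y)` of level `n`: the lower left corner of `Square n x y`. -/
noncomputable def pixel (n x y : ℕ) : ℂ :=
  Complex.mk (((x : ℝ) - 4 * 2 ^ n) / 2 ^ n) (((y : ℝ) - 4 * 2 ^ n) / 2 ^ n)

/-- The pixel `(x, y)` is wrong in the picture `f (·, ·, n)` of level `n`. -/
def Wrong (f : ℕ × ℕ × ℕ → ℕ) (n x y : ℕ) : Prop :=
  (d (pixel n x y) < 1 / 2 ^ n ∧ f (x, y, n) ≠ 0) ∨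
    (2 / 2 ^ n < d (pixel n x y) ∧ f (x, y, n) ≠ 1)

open Classical in
/-- The number of the wrong pixels of level `n` in the block `Square k X Y`; it has
`4 ^ (n - k)` pixels of level `n`. -/
noncomputable def wrong (f : ℕ × ℕ × ℕ → ℕ) (n k X Y : ℕ) : ℕ :=
  ((Finset.range (2 ^ (n - k)) ×ˢ Finset.range (2 ^ (n - k))).filter
    (fun q => Wrong f n (X * 2 ^ (n - k) + q.1) (Y * 2 ^ (n - k) + q.2))).card

theorem result (U : Set ℂ) (hU : IsOpen U) (hUM : (U ∩ frontier M).Nonempty) :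
    (∃ C : ℕ, ∀ (k N : ℕ) (c : ℂ), 1 / 2 ^ k < d c → ‖orbit c N‖ ≤ 3 →
      ∃ c' ∈ U, ∃ N' : ℕ, N ≤ N' ∧ 1 / 2 ^ (C * 2 ^ k) < d c' ∧ ‖orbit c' N'‖ ≤ 3) ∧
    List.TFAE [
      ComputableM,
      ComputableOn U,
      ∃ m : ℕ → ℕ, Computable m ∧ ∀ (k : ℕ), ∀ c ∈ U, 1 / 2 ^ k < d c →
        ∀ n, m k ≤ n → 3 < ‖orbit c n‖,
      ∃ A : ℕ × ℕ × ℕ → Prop, REPred A ∧ ∀ n x y, Square n x y ⊆ U →
        (Square n x y ⊆ M → A (x, y, n)) ∧ (A (x, y, n) → (Square n x y ∩ M).Nonempty),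
      ∃ (f : ℕ × ℕ × ℕ → ℕ) (ρ : ℕ → ℕ), Computable f ∧ Computable ρ ∧
        ∀ k : ℕ, k ≤ ρ k ∧ ∀ X < 8 * 2 ^ k, ∀ Y < 8 * 2 ^ k, Square k X Y ⊆ U →
          2 * wrong f (ρ k) k X Y < 4 ^ (ρ k - k)] := by
  have hw : ∀ (f : ℕ × ℕ × ℕ → ℕ) (n k X Y : ℕ),
      wrong f n k X Y = (Pool.MP_500150_lc.H8.wrongsIn f n k X Y).card := by
    intro f n k X Y
    classical
    unfold wrong Pool.MP_500150_lc.H8.wrongsIn
    congr 1
    ext q
    simp only [Finset.mem_filter]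
    unfold Pool.MP_500150_lc.H8.Wrong Wrong pixel
    rw [Pool.MP_500150_lc.H8.pt_gq]
    rfl
  obtain ⟨h0, h1, h2, h3, h4⟩ := Pool.Agent.Work.MP_500150_lc.LC.fin U hU hUM
  refine ⟨h0, ?_⟩
  tfae_have 1 ↔ 2 := h1
  tfae_have 1 ↔ 3 := h2
  tfae_have 1 ↔ 4 := h3
  tfae_have 1 ↔ 5 := by
    simp only [hw]
    exact h4
  tfae_finish

end Pool.Agent.Results.MP_500150_lc.Locality
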