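import Mathlib
import Pool.Agent.Work.MP_500150_lc.H8.Fwd
import Pool.Agent.Work.MP_500150_lc.H8.Neck2

set_option autoImplicit false

/-!
# Escape times and the widths of channels in the complement of the Mandelbrot set

The Mandelbrot set is computable if and only if the half-widths of the channels which join the
points at distance more than `2 ^ (-k)` to the outside have a computable lower bound. Channels of
half-width `r` give escape times at most `3100 / r ^ 2`; escape times `N` give channels of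
half-width `4 / 5 ^ N`.
-/

namespace Pool.Agent.Results.MP_500150_lc.NeckModulus

/-- The point `z_n` of the critical orbit of the parameter `c`. -/
noncomputable def z (n : ℕ) (c : ℂ) : ℂ := (fun z : ℂ => z ^ 2 + c)^[n] 0

/-- The Mandelbrot set. -/
def M : Set ℂ := {c : ℂ | ∀ i : ℕ, ‖z i c‖ ≤ 2}

/-- The distance to the Mandelbrot set. -/
noncomputable def d (c : ℂ) : ℝ := Metric.infDist c M

/-- `c` is joined to the outside of the disc of radius `3` by a channel of half-width `r`: there is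
a connected set which holds `c` and a point of absolute value at least `3`, all of whose points are
at distance more than `r` from the Mandelbrot set. -/
def Channel (r : ℝ) (c : ℂ) : Prop :=
  ∃ S : Set ℂ, IsPreconnected S ∧ c ∈ S ∧ (∃ w ∈ S, 3 ≤ ‖w‖) ∧ ∀ w ∈ S, r < d w

/-- The distance function of the Mandelbrot set is computable. -/
def ComputableM : Prop :=
  ∃ f : ℕ × ℕ × ℕ × ℕ × ℕ → ℕ × ℕ, Computable f ∧ ∀ a b p q n : ℕ,
    |(((f (a, b, p, q, n)).1 : ℝ) - ((f (a, b, p, q, n)).2 : ℝ)) / 2 ^ n -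
      d (Complex.mk (((a : ℝ) - (b : ℝ)) / 2 ^ n) (((p : ℝ) - (q : ℝ)) / 2 ^ n))| ≤ 1 / 2 ^ n

theorem result :
    (∀ (r : ℝ) (c : ℂ) (n : ℕ), 0 < r → r ≤ 1 → Channel r c → 3100 / r ^ 2 ≤ n → 3 < ‖z n c‖) ∧
    (∀ (N : ℕ) (c : ℂ), 3 < ‖z N c‖ → Channel (4 / 5 ^ N) c) ∧
    (ComputableM ↔ ∃ m : ℕ → ℕ, Computable m ∧
      ∀ (k : ℕ) (c : ℂ), 1 / 2 ^ k < d c → Channel (1 / 2 ^ (m k)) c) := by
  refine ⟨?_, ?_, ?_⟩
  · intro r c n hr hr1 h hn
    exact Pool.MP_500150_lc.H8.escape_time hr hr1 h hn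
  · intro N c hc
    exact Pool.MP_500150_lc.H8.reach_of_large' hc
  · exact Pool.MP_500150_lc.H8.comp_iff_neck

end Pool.Agent.Results.MP_500150_lc.NeckModulus
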