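import Mathlib
import Pool.Agent.Work.MP_500150_lc.H8.Pic2

set_option autoImplicit false

/-!
# Pictures of the Mandelbrot set which are correct up to narrow or deep fjords

A primitive recursive function draws the Mandelbrot set at every resolution, with errors only at
points which are reached from the outside neither by a channel of half-width `2 ^ (-m)` nor by a
chain of `4 ^ m` steps, each of at most a quarter of the distance to the Mandelbrot set.
-/

namespace Pool.Agent.Results.MP_500150_lc.Pictures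

/-- The Mandelbrot set. -/
def M : Set ℂ := {c : ℂ | ∀ i : ℕ, ‖(fun z : ℂ => z ^ 2 + c)^[i] 0‖ ≤ 2}

/-- The distance to the Mandelbrot set. -/
noncomputable def d (c : ℂ) : ℝ := Metric.infDist c M

/-- `c` is joined to the outside of the disc of radius `3` by a channel of half-width `r`. -/
def Channel (r : ℝ) (c : ℂ) : Prop :=
  ∃ S : Set ℂ, IsPreconnected S ∧ c ∈ S ∧ (∃ w ∈ S, 3 ≤ ‖w‖) ∧ ∀ w ∈ S, r < d w

/-- `c` is joined to the outside of the disc of radius `3` by a chain of `m` steps, each of at most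
a quarter of the distance to the Mandelbrot set. -/
def Chain (m : ℕ) (c : ℂ) : Prop :=
  ∃ w : ℕ → ℂ, 3 ≤ ‖w 0‖ ∧ (∀ i < m, ‖w (i + 1) - w i‖ ≤ d (w i) / 4) ∧ w m = c

/-- The point `((a - b) + (p - q) i) / 2 ^ k`. -/
noncomputable def pt (a b p q k : ℕ) : ℂ :=
  Complex.mk (((a : ℝ) - (b : ℝ)) / 2 ^ k) (((p : ℝ) - (q : ℝ)) / 2 ^ k)

theorem result : ∃ f : ℕ × ℕ × ℕ × ℕ × ℕ × ℕ → ℕ, Primrec f ∧ ∀ a b p q k m : ℕ,
    f (a, b, p, q, k, m) ≤ 1 ∧
    (d (pt a b p q k) < 1 / 2 ^ k → f (a, b, p, q, k, m) = 0) ∧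
    (2 * (1 / 2 ^ k) < d (pt a b p q k) →
      (Channel (1 / 2 ^ m) (pt a b p q k) ∨ Chain (4 ^ m) (pt a b p q k)) →
        f (a, b, p, q, k, m) = 1) := by
  classical
  refine ⟨fun u => if Pool.MP_500150_lc.H8.TT u.1 u.2.1 u.2.2.1 u.2.2.2.1 u.2.2.2.2.1 u.2.2.2.2.2
    then 1 else 0, ?_, ?_⟩
  · have h1 : Primrec fun u : ℕ × ℕ × ℕ × ℕ × ℕ × ℕ => u.2 := Primrec.snd
    have h2 := Primrec.snd.comp h1
    have h3 := Primrec.snd.comp h2
    have h4 := Primrec.snd.comp h3
    exact Primrec.ite (Pool.MP_500150_lc.H8.pTT Primrec.fst (Primrec.fst.comp h1)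
      (Primrec.fst.comp h2) (Primrec.fst.comp h3) (Primrec.fst.comp h4) (Primrec.snd.comp h4))
      (Primrec.const 1) (Primrec.const 0)
  · intro a b p q k m
    refine ⟨?_, ?_, ?_⟩
    · show (if _ then 1 else 0) ≤ 1
      split_ifs <;> omega
    · intro h
      show (if _ then 1 else 0) = 0
      rw [if_neg]
      exact Pool.MP_500150_lc.H8.pic_zero h
    · intro h hr
      show (if _ then 1 else 0) = 1
      rw [if_pos]
      have h' : 2 / 2 ^ k < Pool.MP_500150_lc.H8.dM (Pool.MP_500150_lc.H8.zpt a b p q k) := by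
        have e : (2 : ℝ) / 2 ^ k = 2 * (1 / 2 ^ k) := by ring
        rw [e]
        exact h
      rcases hr with hr | hr
      · exact Pool.MP_500150_lc.H8.pic_one h' hr
      · exact Pool.MP_500150_lc.H8.pic_chain h' hr

end Pool.Agent.Results.MP_500150_lc.Pictures
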